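import Pool.Agent.MP_fb096d_an.Iso

set_option autoImplicit false

namespace Pool.Agent.Results.MP_fb096d_an.IsometricCayley

/-- Property RD is not determined by the Cayley graph: there are groups with isomorphic Cayley
graphs for finite symmetric generating sets, one with property RD and the other without. -/
theorem result : ∃ (G H : Type) (_ : Group G) (_ : Group H) (S : Finset G) (T : Finset H),
    (∀ s ∈ S, s⁻¹ ∈ S) ∧ (∀ t ∈ T, t⁻¹ ∈ T) ∧
    Subgroup.closure (S : Set G) = ⊤ ∧ Subgroup.closure (T : Set H) = ⊤ ∧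
    Nonempty (RDQI.cay S ≃g RDQI.cay T) ∧ RDQI.HasRD S ∧ ¬ RDQI.HasRD T :=
  ⟨RDQI.Ksub, RDQI.Lam, inferInstance, inferInstance, RDQI.SK', RDQI.SL', RDQI.SK'_symm,
    RDQI.SL'_symm, RDQI.closure_SK', RDQI.closure_SL', ⟨RDQI.cayIso⟩, RDQI.hasRD_K,
    RDQI.not_hasRD_Lam⟩

end Pool.Agent.Results.MP_fb096d_an.IsometricCayley
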